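import Pool.Agent.W142.TF.Stm4

set_option autoImplicit false

/-!
# Pollard's theorem
-/

namespace Pool.Agent.W333.HF

open Finset

variable {p : ℕ} [NeZero p]

/-- number of representations as a sum -/
def rr (A B : Finset (ZMod p)) (d : ZMod p) : ℕ := (A.filter (fun a => d - a ∈ B)).card

theorem rr_le_left (A B : Finset (ZMod p)) (d : ZMod p) : rr A B d ≤ A.card :=
  Finset.card_filter_le _ _

theorem rr_symm (A B : Finset (ZMod p)) (d : ZMod p) : rr A B d = rr B A d := by
  unfold rr
  refine Finset.card_nbij' (fun a => d - a) (fun a => d - a) ?_ ?_ ?_ ?_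
  · intro a ha
    simp only [Finset.coe_filter, Set.mem_ofPred_eq, sub_sub_cancel] at ha ⊢
    exact ⟨ha.2, ha.1⟩
  · intro a ha
    simp only [Finset.coe_filter, Set.mem_ofPred_eq, sub_sub_cancel] at ha ⊢
    exact ⟨ha.2, ha.1⟩
  · intro a _
    exact sub_sub_cancel _ _
  · intro a _
    exact sub_sub_cancel _ _

theorem rr_le_right (A B : Finset (ZMod p)) (d : ZMod p) : rr A B d ≤ B.card := by
  rw [rr_symm]; exact rr_le_left B A d

theorem rr_union_left (X X' Y : Finset (ZMod p)) (h : Disjoint X X') (d : ZMod p) :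
    rr (X ∪ X') Y d = rr X Y d + rr X' Y d := by
  unfold rr
  rw [Finset.filter_union, Finset.card_union_of_disjoint]
  exact Finset.disjoint_filter_filter h

theorem rr_union_right (X Y Y' : Finset (ZMod p)) (h : Disjoint Y Y') (d : ZMod p) :
    rr X (Y ∪ Y') d = rr X Y d + rr X Y' d := by
  rw [rr_symm, rr_union_left _ _ _ h, rr_symm Y X, rr_symm Y' X]

theorem sum_rr (A B : Finset (ZMod p)) : ∑ d, rr A B d = A.card * B.card := by
  unfold rr
  simp only [Finset.card_filter]
  rw [Finset.sum_comm]
  have h : ∀ a ∈ A, ∑ d : ZMod p, (if d - a ∈ B then 1 else 0) = B.card := by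
    intro a _
    have := Equiv.sum_comp (Equiv.subRight a) (fun e : ZMod p => if e ∈ B then 1 else 0)
    simp only [Equiv.subRight_apply] at this
    rw [this]
    simp
  rw [Finset.sum_congr rfl h, Finset.sum_const, smul_eq_mul]

/-- translation -/
theorem rr_translate (A B : Finset (ZMod p)) (c d : ZMod p) :
    rr (A.map (addRightEmbedding c)) B d = rr A B (d - c) := by
  unfold rr
  rw [Finset.filter_map, Finset.card_map]
  congr 1
  ext a
  simp only [Finset.mem_filter, Function.comp_apply, addRightEmbedding_apply]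
  have : d - (a + c) = d - c - a := by ring
  rw [this]

theorem sum_translate (A B : Finset (ZMod p)) (c : ZMod p) (t : ℕ) :
    ∑ d, min t (rr (A.map (addRightEmbedding c)) B d) = ∑ d, min t (rr A B d) := by
  simp only [rr_translate]
  have := Equiv.sum_comp (Equiv.subRight c) (fun e : ZMod p => min t (rr A B e))
  simpa only [Equiv.subRight_apply] using this

theorem exists_translate (hp : p.Prime) (A B : Finset (ZMod p)) (hA : A.Nonempty)
    (hA' : A ≠ univ) (hB : 1 < B.card) :
    ∃ c, (A.map (addRightEmbedding c) ∩ B).Nonempty ∧ A.map (addRightEmbedding c) ∩ B ≠ B := by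
  have : Fact p.Prime := ⟨hp⟩
  by_contra hcon
  push Not at hcon
  obtain ⟨b, hb, b', hb', hne⟩ := Finset.one_lt_card.1 hB
  have hcl : ∀ a ∈ A, a + (b' - b) ∈ A := by
    intro a ha
    have h1 : b ∈ A.map (addRightEmbedding (b - a)) := by
      rw [Finset.mem_map]
      exact ⟨a, ha, by rw [addRightEmbedding_apply]; ring⟩
    have h2 := hcon (b - a) ⟨b, Finset.mem_inter.2 ⟨h1, hb⟩⟩
    have h3 : b' ∈ A.map (addRightEmbedding (b - a)) := by
      have : b' ∈ A.map (addRightEmbedding (b - a)) ∩ B := by rw [h2]; exact hb'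
      exact (Finset.mem_inter.1 this).1
    obtain ⟨a', ha', e⟩ := Finset.mem_map.1 h3
    rw [addRightEmbedding_apply] at e
    have : a + (b' - b) = a' := by rw [← e]; ring
    rw [this]; exact ha'
  obtain ⟨a₀, ha₀⟩ := hA
  have hmul : ∀ k : ℕ, a₀ + (k : ZMod p) * (b' - b) ∈ A := by
    intro k
    induction k with
    | zero => simpa using ha₀
    | succ k ih =>
      have := hcl _ ih
      have e : a₀ + ((k + 1 : ℕ) : ZMod p) * (b' - b) = a₀ + (k : ZMod p) * (b' - b) + (b' - b) := by
        push_cast; ring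
      rw [e]; exact this
  apply hA'
  apply Finset.eq_univ_of_forall
  intro x
  have hg : b' - b ≠ 0 := sub_ne_zero.2 hne.symm
  have := hmul (((x - a₀) * (b' - b)⁻¹).val)
  rw [ZMod.natCast_zmod_val, mul_assoc, inv_mul_cancel₀ hg, mul_one] at this
  simpa using this

theorem decomp (A B : Finset (ZMod p)) (d : ZMod p) :
    rr A B d = rr (A ∪ B) (A ∩ B) d + rr (A \ (A ∩ B)) (B \ (A ∩ B)) d := by
  have hA : A = (A ∩ B) ∪ (A \ (A ∩ B)) := by
    rw [Finset.union_sdiff_of_subset Finset.inter_subset_left]
  have hB : B = (A ∩ B) ∪ (B \ (A ∩ B)) := by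
    rw [Finset.union_sdiff_of_subset Finset.inter_subset_right]
  have hU : A ∪ B = A ∪ (B \ (A ∩ B)) := by
    ext x; simp only [Finset.mem_union, Finset.mem_sdiff, Finset.mem_inter]; tauto
  have d1 : Disjoint (A ∩ B) (A \ (A ∩ B)) := Finset.disjoint_sdiff
  have d2 : Disjoint (A ∩ B) (B \ (A ∩ B)) := Finset.disjoint_sdiff
  have d3 : Disjoint A (B \ (A ∩ B)) := by
    rw [Finset.disjoint_left]
    intro x hx hx2
    simp only [Finset.mem_sdiff, Finset.mem_inter] at hx2
    exact hx2.2 ⟨hx, hx2.1⟩
  have e1 : rr A B d = rr A (A ∩ B) d + rr A (B \ (A ∩ B)) d := by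
    conv_lhs => rw [hB]
    exact rr_union_right _ _ _ d2 d
  have e2 : rr A (B \ (A ∩ B)) d =
      rr (A ∩ B) (B \ (A ∩ B)) d + rr (A \ (A ∩ B)) (B \ (A ∩ B)) d := by
    have h := rr_union_left (A ∩ B) (A \ (A ∩ B)) (B \ (A ∩ B)) d1 d
    rwa [← hA] at h
  have e3 : rr (A ∪ B) (A ∩ B) d = rr A (A ∩ B) d + rr (B \ (A ∩ B)) (A ∩ B) d := by
    rw [hU]
    exact rr_union_left _ _ _ d3 d
  rw [e1, e2, e3, rr_symm (B \ (A ∩ B)) (A ∩ B)]
  ring

omit [NeZero p] in
theorem alg (a b i u t : ℕ) (h : u + i = a + b) (h1 : i < t) (h2 : t ≤ u) :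
    t * (a + b - t) ≤ u * i + (t - i) * (a + b - i - t) := by
  obtain ⟨s, hs⟩ : ∃ s, t = i + s := ⟨t - i, by omega⟩
  obtain ⟨w, hw⟩ : ∃ w, u = t + w := ⟨u - t, by omega⟩
  have e1 : a + b - t = w + i := by omega
  have e2 : a + b - i - t = w := by omega
  have e3 : t - i = s := by omega
  rw [e1, e2, e3, hw, hs]
  nlinarith

theorem main (hp : p.Prime) : ∀ (n : ℕ) (A B : Finset (ZMod p)) (t : ℕ), B.card = n →
    t ≤ A.card → t ≤ B.card →
    t * min p (A.card + B.card - t) ≤ ∑ d : ZMod p, min t (rr A B d) := by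
  intro n
  induction n using Nat.strong_induction_on with
  | _ n ih =>
  intro A B t hn htA htB
  have hcardp : Fintype.card (ZMod p) = p := ZMod.card p
  rcases Nat.eq_zero_or_pos t with rfl | ht
  · simp
  rcases eq_or_lt_of_le htB with h1 | h1
  · -- t = |B|
    have e : ∑ d : ZMod p, min t (rr A B d) = A.card * B.card := by
      rw [← sum_rr]
      refine Finset.sum_congr rfl fun d _ => ?_
      rw [min_eq_right]
      rw [h1]; exact rr_le_right A B d
    rw [e, h1, Nat.add_sub_cancel, mul_comm]
    exact Nat.mul_le_mul_right _ (min_le_right _ _)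
  rcases eq_or_lt_of_le htA with h2 | h2
  · have e : ∑ d : ZMod p, min t (rr A B d) = A.card * B.card := by
      rw [← sum_rr]
      refine Finset.sum_congr rfl fun d _ => ?_
      rw [min_eq_right]
      rw [h2]; exact rr_le_left A B d
    rw [e, h2, Nat.add_sub_cancel_left]
    exact Nat.mul_le_mul_left _ (min_le_right _ _)
  by_cases hA : A = univ
  · have e : ∀ d, rr A B d = B.card := by
      intro d
      have h3 := sum_rr A B
      have h4 : A.card = p := by rw [hA, Finset.card_univ, hcardp]
      apply le_antisymm (rr_le_right A B d)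
      by_contra hlt
      rw [not_le] at hlt
      have h5 : ∑ d, rr A B d < ∑ _d : ZMod p, B.card :=
        Finset.sum_lt_sum (fun d _ => rr_le_right A B d) ⟨d, Finset.mem_univ _, hlt⟩
      rw [h3, Finset.sum_const, Finset.card_univ, hcardp, h4, smul_eq_mul] at h5
      exact lt_irrefl _ h5
    have e2 : ∑ d : ZMod p, min t (rr A B d) = p * t := by
      rw [Finset.sum_congr rfl (fun d _ => by rw [e d, min_eq_left h1.le] : ∀ d ∈ (univ : Finset (ZMod p)),
        min t (rr A B d) = t), Finset.sum_const, Finset.card_univ, hcardp, smul_eq_mul]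
    rw [e2, mul_comm]
    exact Nat.mul_le_mul_right _ (min_le_left _ _)
  · have hAne : A.Nonempty := by
      rw [← Finset.card_pos]; omega
    obtain ⟨c, hc1, hc2⟩ := exists_translate hp A B hAne hA (by omega)
    rw [← sum_translate A B c t]
    have hcard : (A.map (addRightEmbedding c)).card = A.card := Finset.card_map _
    rw [← hcard] at htA h2 ⊢
    generalize A.map (addRightEmbedding c) = A' at hc1 hc2 htA h2 ⊢
    have hI : (A' ∩ B).card < B.card :=
      Finset.card_lt_card (Finset.ssubset_iff_subset_ne.2 ⟨Finset.inter_subset_right, hc2⟩)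
    have hI0 : 0 < (A' ∩ B).card := Finset.card_pos.2 hc1
    have hUI : (A' ∪ B).card + (A' ∩ B).card = A'.card + B.card :=
      Finset.card_union_add_card_inter A' B
    have hIA : (A' ∩ B).card ≤ A'.card := Finset.card_le_card Finset.inter_subset_left
    have hUp : (A' ∪ B).card ≤ p := by
      have := Finset.card_le_univ (A' ∪ B)
      rwa [hcardp] at this
    rcases le_or_gt t (A' ∩ B).card with h3 | h3
    · have h4 := ih (A' ∩ B).card (by rw [← hn]; exact hI) (A' ∪ B) (A' ∩ B) t rfl
        (by omega) h3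
      rw [hUI] at h4
      refine h4.trans (Finset.sum_le_sum fun d _ => ?_)
      refine min_le_min le_rfl ?_
      rw [decomp A' B d]
      exact Nat.le_add_right _ _
    · have hcA : (A' \ (A' ∩ B)).card = A'.card - (A' ∩ B).card :=
        Finset.card_sdiff_of_subset Finset.inter_subset_left
      have hcB : (B \ (A' ∩ B)).card = B.card - (A' ∩ B).card :=
        Finset.card_sdiff_of_subset Finset.inter_subset_right
      have h4 := ih (B \ (A' ∩ B)).card (by omega) (A' \ (A' ∩ B)) (B \ (A' ∩ B))
        (t - (A' ∩ B).card) rfl (by omega) (by omega)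
      have h5 : ∑ d, rr (A' ∪ B) (A' ∩ B) d +
          ∑ d, min (t - (A' ∩ B).card) (rr (A' \ (A' ∩ B)) (B \ (A' ∩ B)) d) ≤
          ∑ d, min t (rr A' B d) := by
        rw [← Finset.sum_add_distrib]
        refine Finset.sum_le_sum fun d _ => ?_
        rw [decomp A' B d]
        have := rr_le_right (A' ∪ B) (A' ∩ B) d
        omega
      rw [sum_rr] at h5
      refine le_trans ?_ h5
      refine le_trans ?_ (Nat.add_le_add_left h4 _)
      rw [hcA, hcB]
      have hmin : min p (A'.card - (A' ∩ B).card + (B.card - (A' ∩ B).card) -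
          (t - (A' ∩ B).card)) = A'.card + B.card - (A' ∩ B).card - t := by
        rw [min_eq_right (by omega)]
        omega
      rw [hmin]
      refine le_trans (Nat.mul_le_mul_left _ (min_le_right _ _)) ?_
      exact alg _ _ _ _ _ hUI h3 (by omega)

theorem pol : Pool.Agent.W142.TF.S_pol := by
  intro p _ hp A B t htA htB
  have hinj : Function.Injective (fun x : ZMod p => -x) := neg_injective
  have hcard : (B.image (fun x => -x)).card = B.card := Finset.card_image_of_injective _ hinj
  have h := main hp _ A (B.image (fun x => -x)) t rfl htA (by rw [hcard]; exact htB)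
  rw [hcard] at h
  refine h.trans (Finset.sum_le_sum fun d _ => min_le_min le_rfl ?_)
  unfold rr
  refine Finset.card_le_card_of_injOn (fun a => (a, a - d)) ?_ ?_
  · intro a ha
    have ha' : a ∈ A ∧ d - a ∈ B.image (fun x => -x) := by simpa using ha
    obtain ⟨b, hb, e⟩ := Finset.mem_image.1 ha'.2
    have : a - d = b := by
      have : -b = d - a := e
      have h2 : b = -(d - a) := by rw [← this]; ring
      rw [h2]; ring
    simp only [Finset.coe_filter, Finset.mem_product, Set.mem_ofPred_eq]
    exact ⟨⟨ha'.1, by rw [this]; exact hb⟩, by ring⟩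
  · intro a _ a' _ e
    exact (Prod.ext_iff.1 e).1

end Pool.Agent.W333.HF
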